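import Pool.Agent.H33.VJ

/-!
Pseudo-geometric hyperbolicity of varieties which are generically finite over products of projective
manifolds with positive 2-forms and metrics of nonpositive curvature.
-/

set_option autoImplicit false

open LinearAlgebra.Projectivization MvPolynomial
open scoped UpperHalfPlane MatrixGroups
open Pool.Agent.W602.GT Pool.Agent.N155.BB Pool.Agent.H33

/-- For each `a` in the finite set `J` let `X_a = {F a = 0}` be a projective manifold of dimension `d a`
with positive 2-forms and a metric of nonpositive holomorphic sectional curvature (`NonposManifold`).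
Let `V = {G = 0}` be an irreducible projective algebraic set, possibly singular, and let `P a` be
rational maps from `V` to `X_a`, such that the map `(P a)_a` from `V` to the product of the `X_a` is
generically finite (not necessarily dominant). Suppose that for each `a` either the image of `P a` has
dimension at least two, or `X_a` is Brody hyperbolic (for instance a curve of genus at least two).

Then there is a form `T` which is not identically zero on `V`, such that for every point `v` of `V`
with `T (v) ≠ 0`:

* every holomorphic map `g` from the plane to `V` with `g (0) = v` is constant;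
* for every group `Γ` of Möbius transformations of the upper half plane `ℍ` with `ℍ / Γ` compact and
  every `c` in `ℍ`, there are only finitely many `Γ`-invariant holomorphic maps `g` from `ℍ` to `V`
  with `g (c) = v`.

By uniformization, for every pointed compact Riemann surface `(C, c)` there are only finitely many
holomorphic maps from `C` to `V` which map `c` to `v`, so `V` is pseudo-geometrically hyperbolic. -/
theorem Pool.Agent.Results.MP_5b1cbc_ag.ProductsAndCovers.result {J : Type} [Fintype J]
    {n d : J → ℕ} {ι : J → Type} (F : ∀ a, ι a → MvPolynomial (Fin (n a + 1)) ℂ)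
    (hX : ∀ a, NonposManifold (F a) (d a))
    (m : ℕ) (ι' : Type) (G : ι' → MvPolynomial (Fin (m + 1)) ℂ)
    (P : ∀ a, Fin (n a + 1) → MvPolynomial (Fin (m + 1)) ℂ) (hP : ∀ a, RationalMap G (F a) (P a))
    (hirr : IrreducibleSet G)
    (hdim : ∀ a, TwoDimensional G (P a) ∨ ((∃ y ∈ Cone G, ratVal (P a) y ≠ 0) ∧
      ∀ f, HolIn (F a) f → ∀ z w, f z = f w))
    (hgf : JointlyFinite G P) :
    ∃ T : MvPolynomial (Fin (m + 1)) ℂ, IsForm T ∧ (∃ y ∈ Cone G, eval y T ≠ 0) ∧
      ∀ v : ℙ ℂ (Fin (m + 1) → ℂ), v.rep ∈ Cone G → eval v.rep T ≠ 0 →
        (∀ g, HolIn G g → g 0 = v → ∀ z, g z = v) ∧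
        ∀ (Γ : Subgroup SL(2, ℝ)) (r : ℝ), Cocompact Γ r → ∀ c : ℍ,
          {g : ℍ → ℙ ℂ (Fin (m + 1) → ℂ) | HolH (Cone G) g ∧
            (∀ γ ∈ Γ, ∀ z, g (γ • z) = g z) ∧ g c = v}.Finite := by
  choose hX hη hΦ using hX
  choose ν κ η hκ hν hη hh using hη
  choose Φ hΦ hnd hr using hΦ
  exact joint_pgh hX hη hν hh hΦ hnd hr hP hirr hdim hgf
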