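import Pool.Agent.H33.QP

/-!
Pseudo-geometric hyperbolicity of the varieties with a generically finite rational map to a projective
manifold with positive 2-forms (for surfaces: of general type) and a Hermitian metric of nonpositive
holomorphic sectional curvature.
-/

set_option autoImplicit false

open LinearAlgebra.Projectivization MvPolynomial Topology
open scoped UpperHalfPlane MatrixGroups
open Pool.Agent.W602.GT Pool.Agent.N155.BB Pool.Agent.H33
open Pool.Agent.N154.GG (projDist)

/-- Let `X = {F = 0}` be a projective manifold of dimension `d` whose 2-forms are positive: there are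
finitely many sections of `Sym ^ ν (Λ² Ω) ⊗ O (-1)`, for some `ν > 0`, whose values at `(v ∧ w) ^ ν`
are not all zero for linearly independent tangent vectors `v`, `w`. This holds if `Λ² Ω` is ample, and
if `d = 2`, it holds if the canonical bundle is ample. Let `Φ` be a metric on `X` whose holomorphic
sectional curvature is nonpositive; here `Φ` is a Hermitian metric with twice continuously
differentiable coefficients, or more generally a uniformly convex complex Finsler metric. (A surface
of general type with such a metric does not contain rational curves, so its canonical bundle is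
ample, and the theorem applies.)

Then there is a finite set `S` of doubly periodic holomorphic maps `h` from the complex plane to `X`
with `|h'| = 1` with the following properties. Let `Z` be the union of the (elliptic) curves `h (ℂ)`.

* If `d ≥ 2` then `Z` is contained in a proper algebraic subset `X ∩ {E = 0}` of `X`; for a given
  point `x` of `X`, the form `E` can be chosen so that it does not vanish identically on `X` near
  `x`.
* For every `r` there is a number `L` such that, for every group `Γ` of Möbius transformations of the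
  upper half plane `ℍ` such that `ℍ / Γ` is compact, of radius at most `r` for the hyperbolic metric,
  every `Γ`-invariant holomorphic map `f` from `ℍ` to `X` whose image is not contained in `Z` is
  Lipschitz continuous with the constant `L` for the hyperbolic metric.
* Let `V = {G = 0}` be a projective algebraic set, let `P` be a rational map from `V` to `X`, given by
  forms, and let `B = {H = 0}` be a closed subset of `V` such that `P` is defined on the complement of
  `B`, and has finite fibres there. Let `v` be a point of `V` which is not in `B`, such that `P (v)` is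
  not in `Z`. Then every holomorphic map `g` from the complex plane to `V` with `g (0) = v` is
  constant. For every group `Γ` of Möbius transformations of `ℍ` with `ℍ / Γ` compact, and every `c`
  in `ℍ`, there are only finitely many `Γ`-invariant holomorphic maps `g` from `ℍ` to `V` with
  `g (c) = v`. By uniformization, for every pointed compact Riemann surface `(C, c)` there are only
  finitely many holomorphic maps from `C` to `V` which map `c` to `v`: so `V` is pseudo-geometrically
  hyperbolic, if `P` is generically finite and its image is not contained in `Z`. The case `V = X`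
  with the identity map, and empty `B`, is included. -/
theorem Pool.Agent.Results.MP_5b1cbc_ag.PseudoGeometricHyperbolicity.result {n d ν : ℕ}
    {ι κ : Type} [Finite κ] (F : ι → MvPolynomial (Fin (n + 1)) ℂ) (hX : ProjManifold F d)
    (η : κ → (Fin (n + 1) → ℂ) → (Fin (n + 1) → ℂ) → (Fin (n + 1) → ℂ) → ℂ)
    (hη : PositiveTwoForms (Cone F) ∅ d η) (hν : ν ≠ 0) (hh : HomForms (Cone F) ν η)
    (Φ : (Fin (n + 1) → ℂ) → (Fin (n + 1) → ℂ) → ℝ) (hΦ : NonposMetric (Cone F) d Φ)
    (hnd : Nondegenerate (Cone F) d Φ)
    (hr : HermitianMetric (Cone F) d Φ ∨ UniformlyConvex (Cone F) d Φ) :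
    ∃ S : Finset (ℂ → ℙ ℂ (Fin (n + 1) → ℂ)),
      (∀ h ∈ S, HolIn F h ∧ DoublyPeriodic h ∧ HasSpeed Φ 1 h) ∧
      (2 ≤ d → ∀ x ∈ Cone F, ∃ E : MvPolynomial (Fin (n + 1)) ℂ, IsForm E ∧
        (¬ ∀ᶠ y in 𝓝[Cone F] x, eval y E = 0) ∧ ∀ h ∈ S, ∀ z, eval (h z).rep E = 0) ∧
      (∀ r : ℝ, ∃ L : ℝ, ∀ Γ : Subgroup SL(2, ℝ), Cocompact Γ r →
        ∀ f : ℍ → ℙ ℂ (Fin (n + 1) → ℂ), HolH (Cone F) f →
        (∀ γ ∈ Γ, ∀ z, f (γ • z) = f z) → (∃ z, ∀ h ∈ S, ∀ w, f z ≠ h w) →
        ∀ z w, projDist (f z) (f w) ≤ L * dist z w) ∧
      ∀ (m : ℕ) (ι' κ' : Type) (G : ι' → MvPolynomial (Fin (m + 1)) ℂ)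
        (P : Fin (n + 1) → MvPolynomial (Fin (m + 1)) ℂ) (H : κ' → MvPolynomial (Fin (m + 1)) ℂ),
        (∀ j, IsForm (G j)) → (∀ k, IsForm (H k)) → RationalMap G F P → FiniteOff G P H →
        ∀ v : ℙ ℂ (Fin (m + 1) → ℂ), v.rep ∈ Cone G → (∃ k, eval v.rep (H k) ≠ 0) →
        (∀ h ∈ S, ∀ w, ∀ b : ℂ, ratVal P v.rep ≠ b • (h w).rep) →
          (∀ g : ℂ → ℙ ℂ (Fin (m + 1) → ℂ), HolIn G g → g 0 = v → ∀ z, g z = v) ∧
          ∀ (Γ : Subgroup SL(2, ℝ)) (r : ℝ), Cocompact Γ r → ∀ c : ℍ,
            {g : ℍ → ℙ ℂ (Fin (m + 1) → ℂ) | HolH (Cone G) g ∧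
              (∀ γ ∈ Γ, ∀ z, g (γ • z) = g z) ∧ g c = v}.Finite :=
  pgh hX hη hν hh hΦ hnd hr
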